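import Pool.Agent.W424.KI.Stm

/-!
# KI-MB1: step B, deterministic part (helper736)
-/

set_option autoImplicit false

namespace Pool.Agent.W736.KI
open H974 H906.Cyl
open H12S (Nr sqE)
open Pool.Agent.H160R2.ML (nm)
open Pool.Agent.H160R2.MU (Cel EP)
open Pool.Agent.W801.OU
open Pool.Agent.W808.KZ (vp fp mrg)
open Pool.Agent.W424.KI

namespace TMB

/-! ### honest squares -/

/-- squares away from the zipper -/
def Ho (e : Edg) : Prop := ¬ (dco e < 0 ∧ (e.1 + e.2.1 = 0 ∨ e.1 + e.2.1 = -1))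

/-- points away from the zipper -/
def Far (k : ℤ) (x : ℤ × ℤ) : Prop := k ≤ |x.1| ∨ k ≤ x.2

theorem nrm_ho {e : Edg} (h : Ho e) {j t : ℤ} (hj : j = e.1 + e.2.1 ∨ j = e.1 + e.2.1 + 1) :
    nrm {0} (dco e) j t = (j, t) := by
  unfold nrm
  rw [if_neg]
  intro h0
  apply h
  refine ⟨h0.1, ?_⟩
  have := h0.2
  simp only [Set.mem_singleton_iff] at this
  omega

theorem ho_zp {e : Edg} (h : Ho e) : e ∉ zp {0} := by
  intro h0
  simp only [zp, Set.mem_ofPred_eq, Set.mem_singleton_iff] at h0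
  exact h ⟨h0.1, by omega⟩

theorem dg0_ho {e : Edg} (h : Ho e) {x y : ℤ × ℤ} :
    Dg {0} 0 e x y ↔ x = vp (src e) ∧ y = vp (tgt e) := by
  have hv1 : ∀ a b : ℤ, e = (a, b, false) →
      (e.1 + e.2.1, dco e + 1) = vp (src e) ∧ (e.1 + e.2.1 + 1, dco e) = vp (tgt e) ∧
        (e.1 + e.2.1 + dco e) % 2 = 1 := by
    rintro a b rfl
    refine ⟨Prod.ext ?_ ?_, Prod.ext ?_ ?_, ?_⟩ <;> simp [dco, vp] <;> omega
  have hv2 : ∀ a b : ℤ, e = (a, b, true) →
      (e.1 + e.2.1, dco e) = vp (src e) ∧ (e.1 + e.2.1 + 1, dco e + 1) = vp (tgt e) ∧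
        (e.1 + e.2.1 + dco e) % 2 = 0 := by
    rintro a b rfl
    refine ⟨Prod.ext ?_ ?_, Prod.ext ?_ ?_, ?_⟩ <;> simp [dco, vp] <;> omega
  have hcase : (∃ a b : ℤ, e = (a, b, false)) ∨ (∃ a b : ℤ, e = (a, b, true)) := by
    obtain ⟨a, b, _ | _⟩ := e
    · exact Or.inl ⟨a, b, rfl⟩
    · exact Or.inr ⟨a, b, rfl⟩
  constructor
  · intro hd
    rcases hcase with ⟨a, b, he⟩ | ⟨a, b, he⟩
    · obtain ⟨e1, e2, e3⟩ := hv1 a b he
      cases hd with
      | rise h1 => exfalso; omega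
      | fall h1 =>
        rw [nrm_ho h (Or.inl rfl), nrm_ho h (Or.inr rfl)]
        exact ⟨e1, e2⟩
    · obtain ⟨e1, e2, e3⟩ := hv2 a b he
      cases hd with
      | rise h1 =>
        rw [nrm_ho h (Or.inl rfl), nrm_ho h (Or.inr rfl)]
        exact ⟨e1, e2⟩
      | fall h1 => exfalso; omega
  · rintro ⟨rfl, rfl⟩
    rcases hcase with ⟨a, b, he⟩ | ⟨a, b, he⟩
    · obtain ⟨e1, e2, e3⟩ := hv1 a b he
      have h1 := Dg.fall (Z := {0}) (c := 0) (e := e) (by omega)
      rw [nrm_ho h (Or.inl rfl), nrm_ho h (Or.inr rfl), e1, e2] at h1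
      exact h1
    · obtain ⟨e1, e2, e3⟩ := hv2 a b he
      have h1 := Dg.rise (Z := {0}) (c := 0) (e := e) (by omega)
      rw [nrm_ho h (Or.inl rfl), nrm_ho h (Or.inr rfl), e1, e2] at h1
      exact h1

theorem dg1_ho {e : Edg} (h : Ho e) {x y : ℤ × ℤ} :
    Dg {0} 1 e x y ↔ x = fp (dsrc e) ∧ y = fp (dtgt e) := by
  have hv1 : ∀ a b : ℤ, e = (a, b, false) →
      (e.1 + e.2.1, dco e) = fp (dsrc e) ∧ (e.1 + e.2.1 + 1, dco e + 1) = fp (dtgt e) ∧
        (e.1 + e.2.1 + dco e) % 2 = 1 := by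
    rintro a b rfl
    refine ⟨Prod.ext ?_ ?_, Prod.ext ?_ ?_, ?_⟩ <;> simp [dco, fp] <;> omega
  have hv2 : ∀ a b : ℤ, e = (a, b, true) →
      (e.1 + e.2.1, dco e + 1) = fp (dsrc e) ∧ (e.1 + e.2.1 + 1, dco e) = fp (dtgt e) ∧
        (e.1 + e.2.1 + dco e) % 2 = 0 := by
    rintro a b rfl
    refine ⟨Prod.ext ?_ ?_, Prod.ext ?_ ?_, ?_⟩ <;> simp [dco, fp] <;> omega
  have hcase : (∃ a b : ℤ, e = (a, b, false)) ∨ (∃ a b : ℤ, e = (a, b, true)) := by
    obtain ⟨a, b, _ | _⟩ := e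
    · exact Or.inl ⟨a, b, rfl⟩
    · exact Or.inr ⟨a, b, rfl⟩
  constructor
  · intro hd
    rcases hcase with ⟨a, b, he⟩ | ⟨a, b, he⟩
    · obtain ⟨e1, e2, e3⟩ := hv1 a b he
      cases hd with
      | rise h1 =>
        rw [nrm_ho h (Or.inl rfl), nrm_ho h (Or.inr rfl)]
        exact ⟨e1, e2⟩
      | fall h1 => exfalso; omega
    · obtain ⟨e1, e2, e3⟩ := hv2 a b he
      cases hd with
      | rise h1 => exfalso; omega
      | fall h1 =>
        rw [nrm_ho h (Or.inl rfl), nrm_ho h (Or.inr rfl)]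
        exact ⟨e1, e2⟩
  · rintro ⟨rfl, rfl⟩
    rcases hcase with ⟨a, b, he⟩ | ⟨a, b, he⟩
    · obtain ⟨e1, e2, e3⟩ := hv1 a b he
      have h1 := Dg.rise (Z := {0}) (c := 1) (e := e) (by omega)
      rw [nrm_ho h (Or.inl rfl), nrm_ho h (Or.inr rfl), e1, e2] at h1
      exact h1
    · obtain ⟨e1, e2, e3⟩ := hv2 a b he
      have h1 := Dg.fall (Z := {0}) (c := 1) (e := e) (by omega)
      rw [nrm_ho h (Or.inl rfl), nrm_ho h (Or.inr rfl), e1, e2] at h1
      exact h1

/-- position of a corner -/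
theorem cor_pos {κ : ℤ} {e : Edg} {x : ℤ × ℤ} (h : Cor {0} κ e x) :
    ∃ j t : ℤ, (j = e.1 + e.2.1 ∨ j = e.1 + e.2.1 + 1) ∧ (t = dco e ∨ t = dco e + 1) ∧
      x = nrm {0} (dco e) j t := by
  obtain ⟨-, y, h | h⟩ := h
  · cases h with
    | rise _ => exact ⟨_, _, Or.inl rfl, Or.inl rfl, rfl⟩
    | fall _ => exact ⟨_, _, Or.inl rfl, Or.inr rfl, rfl⟩
  · cases h with
    | rise _ => exact ⟨_, _, Or.inr rfl, Or.inr rfl, rfl⟩
    | fall _ => exact ⟨_, _, Or.inr rfl, Or.inl rfl, rfl⟩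

/-- weak bounds for a corner -/
theorem cor_bd {κ : ℤ} {e : Edg} {x : ℤ × ℤ} (h : Cor {0} κ e x) :
    (e.1 + e.2.1 - 1 ≤ x.1 ∧ x.1 ≤ e.1 + e.2.1 + 1) ∧ (dco e ≤ x.2 ∧ x.2 ≤ dco e + 1) ∧
      (dco e < 0 → x.1 ≠ 0) := by
  obtain ⟨j, t, hj, ht, rfl⟩ := cor_pos h
  unfold nrm
  split_ifs with h0
  · have := h0.2
    simp only [Set.mem_singleton_iff] at this
    simp only
    omega
  · have h1 : ¬ (dco e < 0 ∧ j = 0) := by simpa using h0
    simp only
    omega

theorem far_ho {κ : ℤ} {e : Edg} {x : ℤ × ℤ} (h : Cor {0} κ e x) (hx : Far 3 x) : Ho e := by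
  have hb := cor_bd h
  rintro ⟨h1, h2⟩
  rcases hx with hx | hx
  · rcases abs_cases x.1 with h3 | h3 <;> omega
  · omega

theorem cor0_ho {e : Edg} (h : Ho e) {x : ℤ × ℤ} :
    Cor {0} 0 e x ↔ x = vp (src e) ∨ x = vp (tgt e) := by
  constructor
  · rintro ⟨-, y, h1 | h1⟩
    · exact Or.inl ((dg0_ho h).1 h1).1
    · exact Or.inr ((dg0_ho h).1 h1).2
  · rintro (rfl | rfl)
    · exact ⟨ho_zp h, _, Or.inl ((dg0_ho h).2 ⟨rfl, rfl⟩)⟩
    · exact ⟨ho_zp h, _, Or.inr ((dg0_ho h).2 ⟨rfl, rfl⟩)⟩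

theorem cor1_ho {e : Edg} (h : Ho e) {x : ℤ × ℤ} :
    Cor {0} 1 e x ↔ x = fp (dsrc e) ∨ x = fp (dtgt e) := by
  constructor
  · rintro ⟨-, y, h1 | h1⟩
    · exact Or.inl ((dg1_ho h).1 h1).1
    · exact Or.inr ((dg1_ho h).1 h1).2
  · rintro (rfl | rfl)
    · exact ⟨ho_zp h, _, Or.inl ((dg1_ho h).2 ⟨rfl, rfl⟩)⟩
    · exact ⟨ho_zp h, _, Or.inr ((dg1_ho h).2 ⟨rfl, rfl⟩)⟩

theorem vp_inj {u v : Vtx} (h : vp u = vp v) : u = v := by
  obtain ⟨a, b⟩ := u
  obtain ⟨a', b'⟩ := v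
  simp only [vp, Prod.mk.injEq] at h
  simp only [Prod.mk.injEq]
  omega

theorem vp_ne_fp (u v : Vtx) : vp u ≠ fp v := by
  intro h
  simp only [vp, fp, Prod.mk.injEq] at h
  omega

/-- squares at a vertex -/
def At (g : Edg) (v : Vtx) : Prop := src g = v ∨ tgt g = v

theorem at_cases {g : Edg} {a b : ℤ} (h : At g (a, b)) :
    g = (a, b, true) ∨ g = (a, b, false) ∨ g = (a - 1, b, true) ∨ g = (a, b - 1, false) := by
  obtain ⟨x, y, _ | _⟩ := g
  · rcases h with h | h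
    · simp only [src_mk, Prod.mk.injEq] at h
      simp only [Prod.mk.injEq, and_true, Bool.false_eq_true, and_false]
      omega
    · simp only [tgt_false, Prod.mk.injEq] at h
      simp only [Prod.mk.injEq, and_true, Bool.false_eq_true, and_false]
      omega
  · rcases h with h | h
    · simp only [src_mk, Prod.mk.injEq] at h
      simp only [Prod.mk.injEq, and_true, Bool.true_eq_false, and_false]
      omega
    · simp only [tgt_true, Prod.mk.injEq] at h
      simp only [Prod.mk.injEq, and_true, Bool.true_eq_false, and_false]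
      omega

theorem at_ho {g : Edg} {v : Vtx} (h : At g v) (hv : Far 3 (vp v)) : Ho g := by
  rintro ⟨h1, h2⟩
  obtain ⟨a, b⟩ := v
  simp only [Far, vp] at hv
  rcases at_cases h with rfl | rfl | rfl | rfl <;>
    simp only [dco, if_true, Bool.false_eq_true, if_false] at h1 h2 <;>
    rcases hv with hv | hv <;> rcases abs_cases (a + b) with h3 | h3 <;> omega

/-- going round a vertex -/
theorem round {P : ℤ × ℤ → Prop} {w : Vtx}
    (h : ∀ g, At g w → (P (fp (dsrc g)) ↔ P (fp (dtgt g)))) {g0 : Edg} (h0 : At g0 w)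
    (h1 : P (fp (dsrc g0)) ∨ P (fp (dtgt g0))) :
    ∀ g, At g w → P (fp (dsrc g)) ∧ P (fp (dtgt g)) := by
  obtain ⟨a, b⟩ := w
  have e1 := h (a, b, true) (Or.inl rfl)
  have e2 := h (a, b, false) (Or.inl rfl)
  have e3 := h (a - 1, b, true) (Or.inr (by simp))
  have e4 := h (a, b - 1, false) (Or.inr (by simp))
  simp only [dsrc_true, dsrc_false, dtgt_mk] at e1 e2 e3 e4
  have hall : P (fp (a, b)) ∧ P (fp (a - 1, b)) ∧ P (fp (a - 1, b - 1)) ∧ P (fp (a, b - 1)) := by
    rcases at_cases h0 with rfl | rfl | rfl | rfl <;>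
      simp only [dsrc_true, dsrc_false, dtgt_mk] at h1 <;> tauto
  intro g hg
  rcases at_cases hg with rfl | rfl | rfl | rfl <;>
    simp only [dsrc_true, dsrc_false, dtgt_mk] <;> tauto

/-- adjacent points -/
def Sd (R : ℤ) (x y : ℤ × ℤ) : Prop := SdR R x y ∨ SdR R y x

theorem sd_ho {R : ℤ} {e : Edg} (h : Ho e) (hR : e ∈ bxz R) {v : Vtx} (hv : At e v) {p : Vtx}
    (hp : p = dsrc e ∨ p = dtgt e) : Sd R (vp v) (fp p) := by
  have hb := SdR.bot e hR (ho_zp h)
  have ht := SdR.top e hR (ho_zp h)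
  have hl := SdR.lft e hR (ho_zp h)
  have hr := SdR.rgt e hR (ho_zp h)
  rw [nrm_ho h (Or.inl rfl), nrm_ho h (Or.inr rfl)] at hb ht
  rw [nrm_ho h (Or.inl rfl), nrm_ho h (Or.inl rfl)] at hl
  rw [nrm_ho h (Or.inr rfl), nrm_ho h (Or.inr rfl)] at hr
  unfold Sd
  obtain ⟨a, b, _ | _⟩ := e
  · simp only [dco, Bool.false_eq_true, if_false] at hb ht hl hr
    rcases hv with rfl | rfl <;> rcases hp with rfl | rfl
    · right
      convert hl using 2 <;> simp [vp, fp] <;> omega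
    · left
      convert ht using 2 <;> simp [vp, fp] <;> omega
    · right
      convert hb using 2 <;> simp [vp, fp] <;> omega
    · left
      convert hr using 2 <;> simp [vp, fp] <;> omega
  · simp only [dco, if_true] at hb ht hl hr
    rcases hv with rfl | rfl <;> rcases hp with rfl | rfl
    · left
      convert hl using 2 <;> simp [vp, fp] <;> ring
    · left
      convert hb using 2 <;> simp [vp, fp] <;> ring
    · right
      convert ht using 2 <;> simp [vp, fp] <;> ring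
    · right
      convert hr using 2 <;> simp [vp, fp] <;> ring

/-! ### bounds -/

theorem dco_bd (e : Edg) : e.1 - e.2.1 - 1 ≤ dco e ∧ dco e ≤ e.1 - e.2.1 := by
  unfold dco
  split_ifs <;> omega

theorem mem_sq {r : ℕ} (hr : 1 ≤ r) (e : Edg) : e ∈ sqE r (e.1 / (r : ℤ), e.2.1 / (r : ℤ)) := by
  have hr0 : (0 : ℤ) < r := by exact_mod_cast hr
  unfold sqE
  obtain ⟨a, b, t⟩ := e
  have h1 : (r : ℤ) * (a / r) ≤ a := Int.mul_ediv_self_le hr0.ne'
  have h2 : a < (r : ℤ) * (a / r) + r := Int.lt_mul_ediv_self_add hr0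
  have h3 : (r : ℤ) * (b / r) ≤ b := Int.mul_ediv_self_le hr0.ne'
  have h4 : b < (r : ℤ) * (b / r) + r := Int.lt_mul_ediv_self_add hr0
  cases t
  · rw [mem_RE_false]; exact ⟨h1, h2.le, h3, h4⟩
  · rw [mem_RE_true]; exact ⟨h1, h2, h3, h4.le⟩

theorem clo_bd {N L r : ℕ} {Ci Co : Cel} (hr : 1 ≤ r) {e : Edg} (he : e ∈ Clo N L r Ci Co) :
    (-((L : ℤ) * r) ≤ e.1 ∧ e.1 < (L : ℤ) * r) ∧ (-((L : ℤ) * r) ≤ e.2.1 ∧ e.2.1 < (L : ℤ) * r) ∧
    ¬ ((-((N : ℤ) * r) ≤ e.1 ∧ e.1 < (N : ℤ) * r) ∧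
      (-((N : ℤ) * r) ≤ e.2.1 ∧ e.2.1 < (N : ℤ) * r)) := by
  have hr0 : (0 : ℤ) < r := by exact_mod_cast hr
  have h1 : (e.1 / (r : ℤ), e.2.1 / (r : ℤ)) ∉ BxI N L := by
    intro h
    exact he.1 ⟨_, h, mem_sq hr e⟩
  simp only [BxI, Set.mem_ofPred_eq, not_or, not_not] at h1
  obtain ⟨h2, h3, h4, h5, h6⟩ := h1
  refine ⟨⟨?_, ?_⟩, ⟨?_, ?_⟩, ?_⟩
  · have := (Int.le_ediv_iff_mul_le hr0).1 h3
    linarith
  · have := (Int.ediv_lt_iff_lt_mul hr0).1 h4
    linarith
  · have := (Int.le_ediv_iff_mul_le hr0).1 h5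
    linarith
  · have := (Int.ediv_lt_iff_lt_mul hr0).1 h6
    linarith
  · rintro ⟨⟨a1, a2⟩, a3, a4⟩
    apply h2
    refine ⟨(Int.le_ediv_iff_mul_le hr0).2 (by linarith), (Int.ediv_lt_iff_lt_mul hr0).2 a2,
      (Int.le_ediv_iff_mul_le hr0).2 (by linarith), (Int.ediv_lt_iff_lt_mul hr0).2 a4⟩

theorem boxE_iff (R : ℕ) (e : Edg) : e ∈ boxE R ↔ e ∈ bxz R := by
  obtain ⟨x, y, _ | _⟩ := e
  · simp only [boxE, RE, Finset.mem_filter, Finset.mem_product, Finset.mem_Icc, Finset.mem_univ,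
      bxz, Set.mem_ofPred_eq, nm, src_mk, tgt_false, max_le_iff, abs_le,
      Bool.false_eq_true, if_false, and_true]
    omega
  · simp only [boxE, RE, Finset.mem_filter, Finset.mem_product, Finset.mem_Icc, Finset.mem_univ,
      bxz, Set.mem_ofPred_eq, nm, src_mk, tgt_true, max_le_iff, abs_le, if_true, and_true]
    omega

theorem eqv_step {α : Type} {r : α → α → Prop} {a b : α} (h : Relation.EqvGen r a b) :
    a = b ∨ ((∃ y, r b y ∨ r y b) ∧ (∃ y, r a y ∨ r y a)) := by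
  induction h with
  | rel x y h => exact Or.inr ⟨⟨x, Or.inr h⟩, ⟨y, Or.inl h⟩⟩
  | refl x => exact Or.inl rfl
  | symm x y _ ih =>
    rcases ih with ih | ih
    · exact Or.inl ih.symm
    · exact Or.inr ⟨ih.2, ih.1⟩
  | trans x y z _ _ ih1 ih2 =>
    rcases ih1 with rfl | ih1
    · exact ih2
    · rcases ih2 with rfl | ih2
      · exact Or.inr ih1
      · exact Or.inr ⟨ih2.1, ih1.2⟩

theorem at_bd {g : Edg} {v : Vtx} (h : At g v) :
    ((v.1 - 1 ≤ (src g).1 ∧ (src g).1 ≤ v.1) ∧ (v.2 - 1 ≤ (src g).2 ∧ (src g).2 ≤ v.2)) ∧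
    ((v.1 ≤ (tgt g).1 ∧ (tgt g).1 ≤ v.1 + 1) ∧ (v.2 ≤ (tgt g).2 ∧ (tgt g).2 ≤ v.2 + 1)) := by
  obtain ⟨a, b⟩ := v
  rcases at_cases h with rfl | rfl | rfl | rfl <;>
    simp only [src_mk, tgt_true, tgt_false] <;> omega

theorem at_bxz {R : ℤ} {g : Edg} {v : Vtx} (h : At g v) (h1 : |v.1| + 1 ≤ R) (h2 : |v.2| + 1 ≤ R) :
    g ∈ bxz R := by
  have hb := at_bd h
  simp only [bxz, Set.mem_ofPred_eq, nm, max_le_iff]
  have a1 := abs_le.1 (show |v.1| ≤ R - 1 by linarith)
  have a2 := abs_le.1 (show |v.2| ≤ R - 1 by linarith)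
  refine ⟨⟨abs_le.2 ?_, abs_le.2 ?_⟩, ⟨abs_le.2 ?_, abs_le.2 ?_⟩⟩ <;> omega

end TMB

open TMB

set_option maxHeartbeats 4000000 in
theorem mb1 (hONB : S_ONB) (hCOC : S_COC) (hNA : S_NA) (hEXB : S_EXB1) (hSTR : S_STR)
    (hFRB : S_FRB) (hSEP : S_SEPB1) : S_MB1 := by
  classical
  intro c N L r ρ l Ci Co R hc hg hl hlρ hρr F G hF hG hBad hBZ hPT hEZ
  obtain ⟨hSE, hcX⟩ := hEZ
  have hN := hg.hN
  have hL := hg.hL
  have hr := hg.hr
  have hR := hg.hR
  have hr1 : 1 ≤ r := by omega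
  have hρ : 32 ≤ ρ := by omega
  have hNr : (64 : ℤ) ≤ (N : ℤ) * r := by
    have : 16 * 4 ≤ N * r := Nat.mul_le_mul hN hr
    exact_mod_cast this
  have hLr : (48 : ℤ) * r ≤ (L : ℤ) * r := by
    have : 48 * r ≤ L * r := Nat.mul_le_mul_right r (by omega)
    exact_mod_cast this
  have hRZ : 4 * ((L : ℤ) * r) ≤ R := by exact_mod_cast hR
  have hR1 : 1 ≤ R := by
    have : (1 : ℤ) ≤ R := by
      have : (4 : ℤ) ≤ r := by exact_mod_cast hr
      linarith
    exact_mod_cast this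
  set X : Finset Edg := ExB1 c N L r ρ Ci Co R F with hX
  set Gam : Set Edg := (↑(FB N L r Ci Co R F) : Set Edg) with hGam
  set K : ℤ × ℤ → Prop := fun x => RZ {0} (bxz R) Gam (scz 0 0 c) x with hK
  have mX : ∀ e, e ∈ X ↔ e ∈ boxE R ∧ (e ∈ EB N L r ∨ e ∈ ET N L r Ci Co) ∧
      ((∃ x, K x ∧ (Cor {0} 0 e x ∨ Cor {0} 1 e x)) ∨
        (e ∈ Yb N L r ρ Ci Co ∧ (KL N L r ρ Ci Co F (src e) ∨ KL N L r ρ Ci Co F (tgt e)))) := by
    intro e
    rw [hX]
    unfold ExB1
    rw [Finset.mem_filter]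
    rfl
  have mGam : ∀ e, e ∈ Gam ↔ e ∈ boxE R ∧ (e ∈ EB N L r ∨ e ∈ ET N L r Ci Co) ∧ e ∈ F := by
    intro e
    rw [hGam, Finset.mem_coe]
    unfold FB
    rw [Finset.mem_filter]
  set Gam1 : Set Edg := (↑(FB N L r Ci Co R (mrg X F ∅)) : Set Edg) with hGam1
  have mmrg : ∀ (G : Finset Edg) (e : Edg), e ∈ mrg X F G ↔ (e ∈ F ∧ e ∈ X) ∨ (e ∈ G ∧ e ∉ X) := by
    intro G e
    unfold mrg
    rw [Finset.mem_union, Finset.mem_inter, Finset.mem_sdiff]
  have mGam1 : ∀ e, e ∈ Gam1 ↔ e ∈ F ∧ e ∈ X := by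
    intro e
    rw [hGam1, Finset.mem_coe]
    unfold FB
    rw [Finset.mem_filter, mmrg]
    constructor
    · rintro ⟨-, -, h | h⟩
      · exact h
      · exact absurd h.1 (Finset.notMem_empty _)
    · intro h
      have h' := (mX e).1 h.2
      exact ⟨h'.1, h'.2.1, Or.inl h⟩
  set G' : Set Edg := (↑(mrg X F G) : Set Edg) with hG'
  have mG' : ∀ e, e ∈ G' ↔ (e ∈ F ∧ e ∈ X) ∨ (e ∈ G ∧ e ∉ X) := by
    intro e
    rw [hG', Finset.mem_coe, mmrg]
  have hKKL := hEXB c N L r ρ Ci Co R hg (by omega) hρr F ∅ hF (Finset.empty_subset _)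
  set T : ℤ × ℤ → ℤ × ℤ → Prop := RZ {0} (bxz R) Gam1 with hT
  have Trefl : ∀ x, T x x := fun x => Relation.EqvGen.refl x
  have Tsymm : ∀ {x y}, T x y → T y x := fun h => Relation.EqvGen.symm _ _ h
  have Ttrans : ∀ {x y z}, T x y → T y z → T x z := fun h h' => Relation.EqvGen.trans _ _ _ h h'
  have hKT : ∀ x, T (scz 0 0 c) x ↔ K x := hKKL.2.2
  have hKX : ∀ x, K x → ¬ XE N L r Ci Co x := fun x hx h => hcX x h hx
  have hXcl : ∀ {e}, e ∈ X → e ∉ Clo N L r Ci Co := by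
    intro e he h
    rcases ((mX e).1 he).2.1 with h1 | h1
    · exact h.1 h1
    · exact h.2 h1
  have hnc : ∀ {e}, e ∉ Clo N L r Ci Co → (e ∈ EB N L r ∨ e ∈ ET N L r Ci Co) := by
    intro e he
    by_contra h
    push Not at h
    exact he h
  have hGcl : ∀ {e}, e ∈ Clo N L r Ci Co → e ∉ Gam := by
    intro e he h
    rcases ((mGam e).1 h).2.1 with h1 | h1
    · exact he.1 h1
    · exact he.2 h1
  -- connections of the cluster of `c`
  have agree : ∀ H : Set Edg, (∀ e ∈ X, (e ∈ H ↔ e ∈ F)) → ∀ a b,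
      RZ {0} (bxz R) Gam a b → K a → RZ {0} (bxz R) H a b := by
    intro H hH a b hab
    induction hab with
    | rel x y hxy =>
      intro hKx
      obtain ⟨e, he, hez, h⟩ := hxy
      by_cases hcl : e ∈ Clo N L r Ci Co
      · exfalso
        rcases h with ⟨h1, -⟩ | ⟨-, h1⟩
        · exact hGcl hcl h1
        · exact hKX x hKx ⟨e, hcl, hez, y, Or.inl h1⟩
      · have hcor : Cor {0} 0 e x ∨ Cor {0} 1 e x := by
          rcases h with ⟨_, h⟩ | ⟨_, h⟩
          · exact Or.inl ⟨hez, y, Or.inl h⟩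
          · exact Or.inr ⟨hez, y, Or.inl h⟩
        have heX : e ∈ X := (mX e).2 ⟨(boxE_iff R e).2 he, hnc hcl, Or.inl ⟨x, hKx, hcor⟩⟩
        have hiff : e ∈ Gam ↔ e ∈ H := by
          rw [mGam, hH e heX]
          exact ⟨fun h => h.2.2, fun h => ⟨(boxE_iff R e).2 he, hnc hcl, h⟩⟩
        refine Relation.EqvGen.rel _ _ ⟨e, he, hez, ?_⟩
        rw [← hiff]
        exact h
    | refl x => intro _; exact Relation.EqvGen.refl _
    | symm x y hxy ih =>
      intro hKy
      exact Relation.EqvGen.symm _ _ (ih (Relation.EqvGen.trans _ _ _ hKy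
        (Relation.EqvGen.symm _ _ hxy)))
    | trans x y z hxy hyz ih1 ih2 =>
      intro hKx
      exact Relation.EqvGen.trans _ _ _ (ih1 hKx) (ih2 (Relation.EqvGen.trans _ _ _ hKx hxy))
  have hKc : K (scz 0 0 c) := Relation.EqvGen.refl _
  have hout : ∀ H : Set Edg, (∀ e ∈ X, (e ∈ H ↔ e ∈ F)) →
      ∃ x : ℤ × ℤ, RZ {0} (bxz R) H (scz 0 0 c) x ∧ Tou R x := by
    intro H hH
    obtain ⟨x, h1, h2⟩ := hSE.2 c hc
    exact ⟨x, agree H hH _ _ h1 hKc, h2⟩
  have hSE1 : SE3 R Gam1 := by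
    refine (hONB R Gam1 hR1).2.1 c hc (hout Gam1 fun e he => ?_) ?_
    · rw [mGam1]; exact ⟨fun h => h.1, fun h => ⟨h, he⟩⟩
    · intro d hd hdc h
      exact hSE.1 c d hc hd (Ne.symm hdc) ((hKT _).1 h)
  -- points of the cluster of `c` at the closed region
  have far1 : ∀ (x : ℤ × ℤ) (e : Edg), K x → e ∈ Clo N L r Ci Co → Cor {0} 0 e x →
      Far (ρ - 2) x := by
    intro x e hKx hcl hcor
    have hbe := cor_bd hcor
    have hce := clo_bd hr1 hcl
    have hde := dco_bd e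
    have hx0 : scz 0 0 c ≠ x := by
      rintro rfl
      simp only [scz] at hbe
      have hc' : (c : ℤ) < 3 := by exact_mod_cast hc
      apply hce.2.2
      omega
    rcases eqv_step hKx with h | ⟨⟨y, hy⟩, -⟩
    · exact absurd h hx0
    · have hg1 : ∃ g, g ∈ bxz R ∧ g ∉ Clo N L r Ci Co ∧ (Cor {0} 0 g x ∨ Cor {0} 1 g x) := by
        rcases hy with ⟨g, hgb, hgz, h⟩ | ⟨g, hgb, hgz, h⟩
        · refine ⟨g, hgb, ?_, ?_⟩
          · intro hgc
            rcases h with ⟨h1, -⟩ | ⟨-, h1⟩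
            · exact hGcl hgc h1
            · exact hKX x hKx ⟨g, hgc, hgz, y, Or.inl h1⟩
          · rcases h with ⟨-, h1⟩ | ⟨-, h1⟩
            · exact Or.inl ⟨hgz, y, Or.inl h1⟩
            · exact Or.inr ⟨hgz, y, Or.inl h1⟩
        · refine ⟨g, hgb, ?_, ?_⟩
          · intro hgc
            rcases h with ⟨h1, -⟩ | ⟨-, h1⟩
            · exact hGcl hgc h1
            · exact hKX x hKx ⟨g, hgc, hgz, y, Or.inr h1⟩
          · rcases h with ⟨-, h1⟩ | ⟨-, h1⟩
            · exact Or.inl ⟨hgz, y, Or.inr h1⟩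
            · exact Or.inr ⟨hgz, y, Or.inr h1⟩
      obtain ⟨g, hgb, hgc, hgx⟩ := hg1
      have hbg : (g.1 + g.2.1 - 1 ≤ x.1 ∧ x.1 ≤ g.1 + g.2.1 + 1) ∧
          (dco g ≤ x.2 ∧ x.2 ≤ dco g + 1) ∧ (dco g < 0 → x.1 ≠ 0) := by
        rcases hgx with h | h
        · exact cor_bd h
        · exact cor_bd h
      have hdg := dco_bd g
      have hNrD : NrD N L r ρ Ci Co g := by
        refine ⟨e, hcl, abs_le.2 ?_, abs_le.2 ?_⟩ <;> omega
      have hfr := hFRB c N L r ρ Ci Co R hc hg (by omega) hρr F hF hBZ hcX x hKx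
      have e1 : (2 : ℤ) * N * r = 2 * (N * r) := by ring
      have e2 : (2 : ℤ) * L * r = 2 * (L * r) := by ring
      rw [e1, e2] at hfr
      have hExi : ¬ Exi N L r ρ g := by
        rintro (⟨h1, h2⟩ | ⟨h1, h2⟩)
        · rw [abs_le] at h1 h2
          rcases hfr with h | ⟨h, -⟩
          · rw [lt_abs] at h; omega
          · rw [lt_abs] at h; omega
        · rw [abs_le] at h1 h2
          rcases hfr with h | ⟨-, h⟩
          · rw [lt_abs] at h; omega
          · rw [lt_abs] at h; omega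
      have hst := hSTR N L r ρ Ci Co R hg (by omega) hρr g ⟨hnc hgc, hNrD, hExi⟩
      rcases hst with h | h
      · left
        rw [le_abs] at h ⊢
        omega
      · right
        omega
  -- squares of the strip at a vertex without mark
  have hYb : ∀ {w : Vtx} {g : Edg}, ¬ KL N L r ρ Ci Co F w → At g w → g ∉ Clo N L r Ci Co →
      g ∈ Yb N L r ρ Ci Co := by
    intro w g hw hgw hgc
    by_contra h
    exact hw ⟨w, g, hnc hgc, h, hgw, Reach.refl _ _⟩
  have hKLstep : ∀ {w w' : Vtx} {g : Edg}, KL N L r ρ Ci Co F w → At g w → At g w' → g ∈ F →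
      g ∈ Yb N L r ρ Ci Co → KL N L r ρ Ci Co F w' := by
    rintro w w' g ⟨a, e, h1, h2, h3, h4⟩ hw hw' hgF hgY
    refine ⟨a, e, h1, h2, h3, ?_⟩
    have hadj : src g = w ∧ tgt g = w' ∨ src g = w' ∧ tgt g = w ∨ w = w' := by
      rcases hw with hw | hw <;> rcases hw' with hw' | hw'
      · exact Or.inr (Or.inr (hw.symm.trans hw'))
      · exact Or.inl ⟨hw, hw'⟩
      · exact Or.inr (Or.inl ⟨hw', hw⟩)
      · exact Or.inr (Or.inr (hw.symm.trans hw'))
    rcases hadj with h | h | h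
    · exact Relation.ReflTransGen.tail h4 ⟨g, ⟨hgF, hgY⟩, Or.inl h⟩
    · exact Relation.ReflTransGen.tail h4 ⟨g, ⟨hgF, hgY⟩, Or.inr h⟩
    · rw [← h]; exact h4
  -- clusters of the vertices without mark
  have hcl5 : ∀ (v : Vtx), ¬ KL N L r ρ Ci Co F v → Far 5 (vp v) → ∀ y, T (vp v) y → Far 5 y := by
    set P : ℤ × ℤ → Prop := fun y => ∃ w, y = vp w ∧ ¬ KL N L r ρ Ci Co F w ∧ Far 5 (vp w) with hP
    have hstep : ∀ x y e, e ∉ zp {0} → (e ∈ Gam1 ∧ (Dg {0} 0 e x y ∨ Dg {0} 0 e y x)) ∨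
        (e ∉ Gam1 ∧ (Dg {0} 1 e x y ∨ Dg {0} 1 e y x)) → P x → P y := by
      rintro x y e hez h ⟨w, rfl, hw, hf⟩
      have hcor : Cor {0} 0 e (vp w) ∨ Cor {0} 1 e (vp w) := by
        rcases h with ⟨-, h⟩ | ⟨-, h⟩
        · exact Or.inl ⟨hez, y, h⟩
        · exact Or.inr ⟨hez, y, h⟩
      have hho : Ho e := by
        have h3 : Far 3 (vp w) := by
          rcases hf with hf | hf
          · exact Or.inl (by linarith)
          · exact Or.inr (by linarith)
        rcases hcor with h | h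
        · exact far_ho h h3
        · exact far_ho h h3
      rcases h with ⟨he, h⟩ | ⟨-, h⟩
      · have hww : ∃ w', y = vp w' ∧ At e w ∧ At e w' := by
          rcases h with h | h
          · obtain ⟨h1, h2⟩ := (dg0_ho hho).1 h
            exact ⟨tgt e, h2, Or.inl (vp_inj h1).symm, Or.inr rfl⟩
          · obtain ⟨h1, h2⟩ := (dg0_ho hho).1 h
            exact ⟨src e, h1, Or.inr (vp_inj h2).symm, Or.inl rfl⟩
        obtain ⟨w', rfl, haw, haw'⟩ := hww
        obtain ⟨heF, heX⟩ := (mGam1 e).1 he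
        have hY := hYb hw haw (hXcl heX)
        refine ⟨w', rfl, fun h' => hw (hKLstep h' haw' haw heF hY), ?_⟩
        have hst := hSTR N L r ρ Ci Co R hg (by omega) hρr e hY
        have hb := cor_bd ((cor0_ho hho).2 (by
          rcases haw' with h | h
          · exact Or.inl (congrArg vp h).symm
          · exact Or.inr (congrArg vp h).symm : vp w' = vp (src e) ∨ vp w' = vp (tgt e)))
        rcases hst with h | h
        · left
          rw [le_abs] at h ⊢
          omega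
        · right
          omega
      · exfalso
        rcases h with h | h
        · exact vp_ne_fp _ _ ((dg1_ho hho).1 h).1
        · exact vp_ne_fp _ _ ((dg1_ho hho).1 h).2
    have hinv : ∀ x y, T x y → (P x ↔ P y) := by
      intro x y hxy
      induction hxy with
      | rel x y h =>
        obtain ⟨e, -, hez, h⟩ := h
        constructor
        · apply hstep x y e hez
          rcases h with ⟨h1, h2⟩ | ⟨h1, h2⟩
          · exact Or.inl ⟨h1, Or.inl h2⟩
          · exact Or.inr ⟨h1, Or.inl h2⟩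
        · apply hstep y x e hez
          rcases h with ⟨h1, h2⟩ | ⟨h1, h2⟩
          · exact Or.inl ⟨h1, Or.inr h2⟩
          · exact Or.inr ⟨h1, Or.inr h2⟩
      | refl x => exact Iff.rfl
      | symm x y _ ih => exact ih.symm
      | trans x y z _ _ ih1 ih2 => exact ih1.trans ih2
    intro v hv hf y hy
    obtain ⟨w, rfl, -, h⟩ := (hinv _ _ hy).1 ⟨v, rfl, hv, hf⟩
    exact h
  have htip : ∀ d : ℕ, d < 3 → ¬ Far 5 (scz 0 0 d) := by
    intro d hd h
    have hd' : (d : ℤ) < 3 := by exact_mod_cast hd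
    rcases h with h | h
    · simp only [scz] at h
      rw [le_abs] at h
      omega
    · simp only [scz] at h
      omega
  have far3 : ∀ {k : ℤ} {x : ℤ × ℤ}, 3 ≤ k → Far k x → Far 3 x := by
    rintro k x hk (h | h)
    · exact Or.inl (by linarith)
    · exact Or.inr (by linarith)
  -- the faces around a vertex
  have M : ∀ (v' u : Vtx) (xu : ℤ × ℤ), ¬ K (vp v') → ¬ KL N L r ρ Ci Co F v' → Far 5 (vp v') →
      |v'.1| + 1 ≤ (R : ℤ) → |v'.2| + 1 ≤ (R : ℤ) → K (vp u) → XE N L r Ci Co xu →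
      Sd R (vp u) xu → ∀ g, At g v' → (T (fp (dsrc g)) xu ↔ T (fp (dtgt g)) xu) := by
    intro v' u xu hKv hKLv hf5 hb1 hb2 hKu hxu hSdu g hgv
    have key : ∀ x1 x2, ((x1 = fp (dsrc g) ∧ x2 = fp (dtgt g)) ∨
        (x1 = fp (dtgt g) ∧ x2 = fp (dsrc g))) → T x1 xu → T x2 xu := by
      intro x1 x2 hx h1
      by_contra h2
      have hho : Ho g := at_ho hgv (far3 (by norm_num) hf5)
      have hgb : g ∈ bxz R := at_bxz hgv hb1 hb2
      have hgG : g ∈ Gam1 := by
        by_contra hgG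
        have h12 : T x1 x2 := by
          have h0 : T (fp (dsrc g)) (fp (dtgt g)) := Relation.EqvGen.rel _ _
            ⟨g, hgb, ho_zp hho, Or.inr ⟨hgG, (dg1_ho hho).2 ⟨rfl, rfl⟩⟩⟩
          rcases hx with ⟨rfl, rfl⟩ | ⟨rfl, rfl⟩
          · exact h0
          · exact Tsymm h0
        exact h2 (Ttrans (Tsymm h12) h1)
      obtain ⟨hgF, hgX⟩ := (mGam1 g).1 hgG
      rcases ((mX g).1 hgX).2.2 with ⟨x, hKx, hx'⟩ | ⟨hY, hkl⟩
      · rcases hx' with hx' | hx'
        · have hl : T (vp (src g)) (vp (tgt g)) := Relation.EqvGen.rel _ _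
            ⟨g, hgb, ho_zp hho, Or.inl ⟨hgG, (dg0_ho hho).2 ⟨rfl, rfl⟩⟩⟩
          have hs : K (vp (src g)) ∧ K (vp (tgt g)) := by
            rcases (cor0_ho hho).1 hx' with rfl | rfl
            · exact ⟨hKx, (hKT _).1 (Ttrans ((hKT _).2 hKx) hl)⟩
            · exact ⟨(hKT _).1 (Ttrans ((hKT _).2 hKx) (Tsymm hl)), hKx⟩
          rcases hgv with rfl | rfl
          · exact hKv hs.1
          · exact hKv hs.2
        · have hx12 : x = x1 ∨ x = x2 := by
            rcases (cor1_ho hho).1 hx' with h | h <;> rcases hx with ⟨h3, h4⟩ | ⟨h3, h4⟩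
            · exact Or.inl (h.trans h3.symm)
            · exact Or.inr (h.trans h4.symm)
            · exact Or.inr (h.trans h4.symm)
            · exact Or.inl (h.trans h3.symm)
          rcases hx12 with h | h
          · rw [h] at hKx
            exact hKX xu ((hKT _).1 (Ttrans ((hKT _).2 hKx) h1)) hxu
          · rw [h] at hKx
            set Rel : ℤ × ℤ → ℤ × ℤ → Prop := fun x y =>
              (T x (vp v') ∧ T y xu) ∨ (T y (vp v') ∧ T x xu) with hRel
            obtain ⟨φ, hφ1, hφ2⟩ := hCOC R Gam1 Rel hR1 (fun x y h => Or.symm h)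
              (by
                rintro x x' y h (⟨a, b⟩ | ⟨a, b⟩)
                · exact Or.inl ⟨Ttrans (Tsymm h) a, b⟩
                · exact Or.inr ⟨a, Ttrans (Tsymm h) b⟩)
              (by
                rintro c1 d1 hc1 hd1 - (⟨a, -⟩ | ⟨a, -⟩)
                · exact htip c1 hc1 (hcl5 v' hKLv hf5 _ (Tsymm a))
                · exact htip d1 hd1 (hcl5 v' hKLv hf5 _ (Tsymm a)))
            have hφS : ∀ x y, Sd R x y → (Rel x y ↔ ¬ (φ x ↔ φ y)) := by
              rintro x y (h | h)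
              · exact hφ2 x y h
              · have h3 := hφ2 y x h
                constructor
                · intro h4 h5
                  exact h3.1 (Or.symm h4) h5.symm
                · intro h4
                  exact Or.symm (h3.2 fun h5 => h4 h5.symm)
            have hp1 : ∃ p, x1 = fp p ∧ (p = dsrc g ∨ p = dtgt g) := by
              rcases hx with ⟨h3, -⟩ | ⟨h3, -⟩
              · exact ⟨_, h3, Or.inl rfl⟩
              · exact ⟨_, h3, Or.inr rfl⟩
            have hp2 : ∃ p, x2 = fp p ∧ (p = dsrc g ∨ p = dtgt g) := by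
              rcases hx with ⟨-, h3⟩ | ⟨-, h3⟩
              · exact ⟨_, h3, Or.inr rfl⟩
              · exact ⟨_, h3, Or.inl rfl⟩
            have sd1 : Sd R (vp v') x1 := by
              obtain ⟨p, rfl, hp⟩ := hp1
              exact sd_ho hho hgb hgv hp
            have sd2 : Sd R (vp v') x2 := by
              obtain ⟨p, rfl, hp⟩ := hp2
              exact sd_ho hho hgb hgv hp
            have hva : ¬ T (vp v') x1 := by
              intro h3
              rcases sd1 with h4 | h4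
              · exact hNA R Gam1 hR1 hSE1 _ _ h4 h3
              · exact hNA R Gam1 hR1 hSE1 _ _ h4 (Tsymm h3)
            have hvx : ¬ T (vp v') xu := fun h3 => hva (Ttrans h3 (Tsymm h1))
            have f1 : ¬ (φ (vp v') ↔ φ x1) := (hφS _ _ sd1).1 (Or.inl ⟨Trefl _, h1⟩)
            have f2 : φ x1 ↔ φ xu := hφ1 _ _ h1
            have f3 : φ (vp v') ↔ φ x2 := by
              by_contra h3
              rcases (hφS _ _ sd2).2 h3 with ⟨_, h4⟩ | ⟨_, h4⟩
              · exact h2 h4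
              · exact hvx h4
            have f4 : φ (scz 0 0 c) ↔ φ x2 := hφ1 _ _ ((hKT x2).2 hKx)
            have f5 : φ (scz 0 0 c) ↔ φ (vp u) := hφ1 _ _ ((hKT _).2 hKu)
            have f6 : φ (vp u) ↔ φ xu := by
              by_contra h3
              rcases (hφS _ _ hSdu).2 h3 with ⟨h4, _⟩ | ⟨h4, _⟩
              · exact hKv ((hKT _).1 (Ttrans ((hKT _).2 hKu) h4))
              · exact hvx (Tsymm h4)
            exact f1 (f3.trans (f4.symm.trans (f5.trans (f6.trans f2.symm))))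
      · rcases hkl with h | h
        · exact hKLv (hKLstep h (Or.inl rfl) hgv hgF hY)
        · exact hKLv (hKLstep h (Or.inr rfl) hgv hgF hY)
    exact ⟨key _ _ (Or.inl ⟨rfl, rfl⟩), key _ _ (Or.inr ⟨rfl, rfl⟩)⟩
  have hCp : Cp 0 (↑G : Set Edg) = (↑G : Set Edg) := by
    ext e
    simp [Cp]
  have hdvb : ∀ u : Vtx, DvB N L r Ci Co u → |u.1| ≤ (L : ℤ) * r + 1 ∧ |u.2| ≤ (L : ℤ) * r + 1 := by
    rintro u ⟨e, he, heu⟩
    have h1 := clo_bd hr1 he
    have h2 := at_bd (g := e) (v := u) heu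
    have h3 : (src e).1 = e.1 ∧ (src e).2 = e.2.1 := ⟨rfl, rfl⟩
    rw [h3.1, h3.2] at h2
    exact ⟨abs_le.2 (by omega), abs_le.2 (by omega)⟩
  have hlr : (4 * l : ℤ) + 2 ≤ r := by omega
  have near : ∀ u v : Vtx, DvB N L r Ci Co u → Far (ρ - 2) (vp u) → Reach (↑G : Set Edg) u v →
      Nr (4 * l) u v ∧ Far 5 (vp v) ∧ |v.1| + 1 ≤ (R : ℤ) ∧ |v.2| + 1 ≤ (R : ℤ) := by
    intro u v hu hf hre
    obtain ⟨h1, h2⟩ := hdvb u hu
    have h3 : nm u ≤ 2 * ((L * r : ℕ) : ℤ) := by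
      push_cast
      unfold nm
      rw [max_le_iff]
      constructor <;> linarith
    have h4 := hPT u v h3 (by rw [hCp]; exact hre)
    refine ⟨h4, ?_, ?_, ?_⟩
    · obtain ⟨h5, h6⟩ := h4
      rw [abs_le] at h5 h6
      rcases hf with h | h
      · left
        simp only [vp] at h ⊢
        rw [le_abs] at h ⊢
        omega
      · right
        simp only [vp] at h ⊢
        omega
    · obtain ⟨h5, h6⟩ := h4
      have := abs_sub_abs_le_abs_sub v.1 u.1
      rw [abs_sub_comm] at this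
      linarith
    · obtain ⟨h5, h6⟩ := h4
      have := abs_sub_abs_le_abs_sub v.2 u.2
      rw [abs_sub_comm] at this
      linarith
  -- the cluster in the new configuration
  set S : ℤ × ℤ → Prop := fun z => K z ∨ ∃ v : Vtx, z = vp v ∧ ¬ K (vp v) ∧
    ¬ KL N L r ρ Ci Co F v ∧ ∃ (u : Vtx) (xu : ℤ × ℤ), K (vp u) ∧ DvB N L r Ci Co u ∧
      Far (ρ - 2) (vp u) ∧ Reach (↑G : Set Edg) u v ∧ XE N L r Ci Co xu ∧ Sd R (vp u) xu ∧
      ∀ g, At g v → T (fp (dsrc g)) xu ∧ T (fp (dtgt g)) xu with hS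
  have hstep : ∀ x y e, e ∈ bxz R → e ∉ zp {0} → (e ∈ G' ∧ (Dg {0} 0 e x y ∨ Dg {0} 0 e y x)) ∨
      (e ∉ G' ∧ (Dg {0} 1 e x y ∨ Dg {0} 1 e y x)) → S x → S y := by
    rintro x y e heb hez h (hKx | ⟨v, rfl, hvK, hvKL, u, xu, hKu, hDu, hFu, hRe, hxu, hSd, hfc⟩)
    · by_cases hcl : e ∈ Clo N L r Ci Co
      · have heX : e ∉ X := fun h' => hXcl h' hcl
        rcases h with ⟨he, h⟩ | ⟨he, h⟩
        · have hcor : Cor {0} 0 e x := ⟨hez, y, h⟩
          have hf := far1 x e hKx hcl hcor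
          have hho : Ho e := far_ho hcor (far3 (by omega) hf)
          obtain ⟨u, w, rfl, rfl, huw⟩ : ∃ u w, x = vp u ∧ y = vp w ∧
              ((src e = u ∧ tgt e = w) ∨ (src e = w ∧ tgt e = u)) := by
            rcases h with h | h
            · obtain ⟨h1, h2⟩ := (dg0_ho hho).1 h
              exact ⟨_, _, h1, h2, Or.inl ⟨rfl, rfl⟩⟩
            · obtain ⟨h1, h2⟩ := (dg0_ho hho).1 h
              exact ⟨_, _, h2, h1, Or.inr ⟨rfl, rfl⟩⟩
          have hau : At e u := by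
            rcases huw with ⟨h1, -⟩ | ⟨-, h1⟩
            · exact Or.inl h1
            · exact Or.inr h1
          have haw : At e w := by
            rcases huw with ⟨-, h1⟩ | ⟨h1, -⟩
            · exact Or.inr h1
            · exact Or.inl h1
          by_cases hKw : K (vp w)
          · exact Or.inl hKw
          · have hDu : DvB N L r Ci Co u := ⟨e, hcl, hau⟩
            have hDw : DvB N L r Ci Co w := ⟨e, hcl, haw⟩
            have heG : e ∈ G := by
              rcases (mG' e).1 he with h' | h'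
              · exact absurd h'.2 heX
              · exact h'.1
            have hRe : Reach (↑G : Set Edg) u w :=
              Relation.ReflTransGen.single ⟨e, heG, huw⟩
            obtain ⟨hN4, hF5, hb1, hb2⟩ := near u w hDu hf hRe
            have hKLw : ¬ KL N L r ρ Ci Co F w := fun hk => hKw
              (Relation.EqvGen.trans _ _ _ hKx (hSEP c N L r ρ l Ci Co R hc hg hl hlρ hρr F hF
                hBad hBZ hcX u w hKx hDu hDw hk hN4))
            have hXE : XE N L r Ci Co (fp (dtgt e)) := ⟨e, hcl, (cor1_ho hho).2 (Or.inr rfl)⟩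
            have hSd : Sd R (vp u) (fp (dtgt e)) := sd_ho hho heb hau (Or.inr rfl)
            refine Or.inr ⟨w, rfl, hKw, hKLw, u, fp (dtgt e), hKx, hDu, hf, hRe, hXE, hSd, ?_⟩
            exact round (P := fun z => T z (fp (dtgt e)))
              (M w u _ hKw hKLw hF5 hb1 hb2 hKx hXE hSd) haw (Or.inr (Trefl _))
        · exact absurd (⟨e, hcl, hez, y, h⟩ : XE N L r Ci Co x) (hKX x hKx)
      · have hcor : Cor {0} 0 e x ∨ Cor {0} 1 e x := by
          rcases h with ⟨_, h⟩ | ⟨_, h⟩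
          · exact Or.inl ⟨hez, y, h⟩
          · exact Or.inr ⟨hez, y, h⟩
        have heX : e ∈ X := (mX e).2 ⟨(boxE_iff R e).2 heb, hnc hcl, Or.inl ⟨x, hKx, hcor⟩⟩
        have hiff : e ∈ Gam ↔ e ∈ G' := by
          rw [mGam, mG']
          constructor
          · intro h'
            exact Or.inl ⟨h'.2.2, heX⟩
          · rintro (h' | h')
            · exact ⟨(boxE_iff R e).2 heb, hnc hcl, h'.1⟩
            · exact absurd heX h'.2
        rw [← hiff] at h
        left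
        rcases h with ⟨he, h | h⟩ | ⟨he, h | h⟩
        · exact Relation.EqvGen.trans _ _ _ hKx (Relation.EqvGen.rel _ _
            ⟨e, heb, hez, Or.inl ⟨he, h⟩⟩)
        · exact Relation.EqvGen.trans _ _ _ hKx (Relation.EqvGen.symm _ _
            (Relation.EqvGen.rel _ _ ⟨e, heb, hez, Or.inl ⟨he, h⟩⟩))
        · exact Relation.EqvGen.trans _ _ _ hKx (Relation.EqvGen.rel _ _
            ⟨e, heb, hez, Or.inr ⟨he, h⟩⟩)
        · exact Relation.EqvGen.trans _ _ _ hKx (Relation.EqvGen.symm _ _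
            (Relation.EqvGen.rel _ _ ⟨e, heb, hez, Or.inr ⟨he, h⟩⟩))
    · obtain ⟨-, hf5, -, -⟩ := near u v hDu hFu hRe
      have hho : Ho e := by
        rcases h with ⟨_, h⟩ | ⟨_, h⟩
        · exact far_ho (κ := 0) ⟨hez, y, h⟩ (far3 (by norm_num) hf5)
        · exact far_ho (κ := 1) ⟨hez, y, h⟩ (far3 (by norm_num) hf5)
      rcases h with ⟨he, h⟩ | ⟨he, h⟩
      · obtain ⟨w, rfl, hvw⟩ : ∃ w, y = vp w ∧
            ((src e = v ∧ tgt e = w) ∨ (src e = w ∧ tgt e = v)) := by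
          rcases h with h | h
          · obtain ⟨h1, h2⟩ := (dg0_ho hho).1 h
            exact ⟨_, h2, Or.inl ⟨(vp_inj h1).symm, rfl⟩⟩
          · obtain ⟨h1, h2⟩ := (dg0_ho hho).1 h
            exact ⟨_, h1, Or.inr ⟨rfl, (vp_inj h2).symm⟩⟩
        have hav : At e v := by
          rcases hvw with ⟨h1, -⟩ | ⟨-, h1⟩
          · exact Or.inl h1
          · exact Or.inr h1
        have haw : At e w := by
          rcases hvw with ⟨-, h1⟩ | ⟨h1, -⟩
          · exact Or.inr h1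
          · exact Or.inl h1
        by_cases hKw : K (vp w)
        · exact Or.inl hKw
        · have heX : e ∉ X := by
            intro heX
            have heF : e ∈ F := by
              rcases (mG' e).1 he with h' | h'
              · exact h'.1
              · exact absurd heX h'.2
            rcases ((mX e).1 heX).2.2 with ⟨x', hKx', hx' | hx'⟩ | ⟨hY, hkl⟩
            · rcases (cor0_ho hho).1 hx' with rfl | rfl
              · rcases hvw with ⟨h1, -⟩ | ⟨h1, -⟩
                · rw [h1] at hKx'; exact hvK hKx'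
                · rw [h1] at hKx'; exact hKw hKx'
              · rcases hvw with ⟨-, h1⟩ | ⟨-, h1⟩
                · rw [h1] at hKx'; exact hKw hKx'
                · rw [h1] at hKx'; exact hvK hKx'
            · have hTx : T x' xu := by
                rcases (cor1_ho hho).1 hx' with rfl | rfl
                · exact (hfc e hav).1
                · exact (hfc e hav).2
              exact hKX xu ((hKT _).1 (Ttrans ((hKT _).2 hKx') hTx)) hxu
            · rcases hkl with h' | h'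
              · exact hvKL (hKLstep h' (Or.inl rfl) hav heF hY)
              · exact hvKL (hKLstep h' (Or.inr rfl) hav heF hY)
          have heG : e ∈ G := by
            rcases (mG' e).1 he with h' | h'
            · exact absurd h'.2 heX
            · exact h'.1
          have hRe' : Reach (↑G : Set Edg) u w :=
            Relation.ReflTransGen.tail hRe ⟨e, heG, hvw⟩
          obtain ⟨hN4, hF5, hb1, hb2⟩ := near u w hDu hFu hRe'
          have hKLw : ¬ KL N L r ρ Ci Co F w := by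
            intro hk
            by_cases hcl : e ∈ Clo N L r Ci Co
            · exact hKw (Relation.EqvGen.trans _ _ _ hKu (hSEP c N L r ρ l Ci Co R hc hg hl hlρ
                hρr F hF hBad hBZ hcX u w hKu hDu ⟨e, hcl, haw⟩ hk hN4))
            · apply heX
              refine (mX e).2 ⟨(boxE_iff R e).2 heb, hnc hcl, Or.inr ⟨hYb hvKL hav hcl, ?_⟩⟩
              rcases haw with h1 | h1
              · rw [h1]; exact Or.inl hk
              · rw [h1]; exact Or.inr hk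
          exact Or.inr ⟨w, rfl, hKw, hKLw, u, xu, hKu, hDu, hFu, hRe', hxu, hSd,
            round (P := fun z => T z xu) (M w u xu hKw hKLw hF5 hb1 hb2 hKu hxu hSd) haw
              (Or.inr (hfc e hav).2)⟩
      · exfalso
        rcases h with h | h
        · exact vp_ne_fp _ _ ((dg1_ho hho).1 h).1
        · exact vp_ne_fp _ _ ((dg1_ho hho).1 h).2
  have hinv : ∀ x y, RZ {0} (bxz R) G' x y → (S x ↔ S y) := by
    intro x y hxy
    induction hxy with
    | rel x y h =>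
      obtain ⟨e, heb, hez, h⟩ := h
      constructor
      · apply hstep x y e heb hez
        rcases h with ⟨h1, h2⟩ | ⟨h1, h2⟩
        · exact Or.inl ⟨h1, Or.inl h2⟩
        · exact Or.inr ⟨h1, Or.inl h2⟩
      · apply hstep y x e heb hez
        rcases h with ⟨h1, h2⟩ | ⟨h1, h2⟩
        · exact Or.inl ⟨h1, Or.inr h2⟩
        · exact Or.inr ⟨h1, Or.inr h2⟩
    | refl x => exact Iff.rfl
    | symm x y _ ih => exact ih.symm
    | trans x y z _ _ ih1 ih2 => exact ih1.trans ih2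
  refine (hONB R G' hR1).2.1 c hc (hout G' fun e he => ?_) ?_
  · rw [mG']
    constructor
    · rintro (h | h)
      · exact h.1
      · exact absurd he h.2
    · intro h
      exact Or.inl ⟨h, he⟩
  · intro d hd hdc h
    rcases (hinv _ _ h).1 (Or.inl hKc) with h1 | ⟨v, h1, -, -, u, xu, -, hDu, hFu, hRe, -⟩
    · exact hSE.1 c d hc hd (Ne.symm hdc) h1
    · obtain ⟨-, hf5, -, -⟩ := near u v hDu hFu hRe
      rw [← h1] at hf5
      exact htip d hd hf5

/-- **KI-MB1** -/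
theorem t_MB1 : S_TRIB → S_ONB → S_COC → S_NA → S_XCH → S_z1 → S_z2 → S_z3 → S_EX → S_EXB1 →
    S_STR → S_FRB → S_SEPB1 → S_MB1 :=
  fun _ hONB hCOC hNA _ _ _ _ _ hEXB hSTR hFRB hSEP => mb1 hONB hCOC hNA hEXB hSTR hFRB hSEP

end Pool.Agent.W736.KI
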